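import Mathlib
import Pool.Agent.Hhelper82.Gf.Geom

/-!
# Word frequencies in expansions with a Gaussian rational base

For every `α ∈ ℚ(i) \ ℝ` with `|α| > 1` and almost every `x ∈ ℂ`, the `α`-expansion of `x` is
unique and every word of length `l` over the digit set `D` has frequency `|D| ^ (-l)` in it.
-/

open Filter Topology MeasureTheory Complex Pool.Agent.Hhelper82.Gf

namespace Pool.Agent.Results.MP_cdbd41_nt.WordFrequencies

/-- `a₂ X² + a₁ X + a₀` is the primitive polynomial with root `α` and `a₂ > 0` (for `α ∉ ℝ` it is the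
minimal primitive polynomial of `α`). -/
def IsMinPoly (α : ℂ) (a₀ a₁ a₂ : ℤ) : Prop :=
  0 < a₂ ∧ Int.gcd (Int.gcd a₀ a₁) a₂ = 1 ∧ (a₂ : ℂ) * α ^ 2 + a₁ * α + a₀ = 0

/-- The lattice `Λ_α = a₂ ℤ + (a₂ α + a₁) ℤ`. -/
def Lam (α : ℂ) (a₁ a₂ : ℤ) : Set ℂ := {z | ∃ m n : ℤ, z = m * a₂ + n * (a₂ * α + a₁)}

/-- `(d_j)_{j ≤ k}` is an `α`-expansion of `x` (the values `d j` for `j > k` are irrelevant). -/
structure IsExpansion (α : ℂ) (a₀ a₁ a₂ : ℤ) (x : ℂ) (k : ℤ) (d : ℤ → ℤ) : Prop where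
  /-- the digits are in `{0, …, |a₀| - 1}` -/
  digit : ∀ j ≤ k, 0 ≤ d j ∧ d j < |a₀|
  /-- `x = ∑_{j ≤ k} d_j α ^ j` -/
  sum : HasSum (fun i : ℕ => (d (k - i) : ℂ) * α ^ (k - i : ℤ)) x
  /-- all integer parts are in `Λ_α` -/
  lattice : ∀ m ≤ k, ∑ j ∈ Finset.Icc m k, (d j : ℂ) * α ^ (j - m) ∈ Lam α a₁ a₂

/-- The lattice point `N` has a finite digit string: applying `N ↦ (N - d) / α` repeatedly, with
digits `d ∈ {0, …, |a₀| - 1}` and all points in `Λ_α`, one reaches `0`. -/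
def FinDigits (α : ℂ) (a₀ a₁ a₂ : ℤ) (N : ℂ) : Prop :=
  ∃ (n : ℕ) (M : ℕ → ℂ) (d : ℕ → ℤ), M 0 = N ∧ M n = 0 ∧ (∀ i ≤ n, M i ∈ Lam α a₁ a₂) ∧
    ∀ i < n, (0 ≤ d i ∧ d i < |a₀|) ∧ M i = α * M (i + 1) + d i

/-- The word `w` has frequency `φ` in the infinite word `d_k d_{k-1} d_{k-2} ⋯`. -/
def HasFreq (k : ℤ) (d : ℤ → ℤ) {l : ℕ} (w : Fin l → ℤ) (φ : ℝ) : Prop :=
  Tendsto (fun n : ℕ =>
    (((Finset.range n).filter (fun t : ℕ => ∀ i : Fin l, d (k - t - (i : ℕ)) = w i)).card : ℝ) / n)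
    atTop (𝓝 φ)

/-- The integer part `N_m` of an expansion. -/
noncomputable def Nf (α : ℂ) (k : ℤ) (d : ℤ → ℤ) (m : ℤ) : ℂ :=
  ∑ j ∈ Finset.Icc m k, (d j : ℂ) * α ^ (j - m)

/-- The digits extended by zero. -/
def ext0 (k : ℤ) (d : ℤ → ℤ) (j : ℤ) : ℤ := if j ≤ k then d j else 0

theorem Nf_step {α : ℂ} (hα : α ≠ 0) (k : ℤ) (d : ℤ → ℤ) (m : ℤ) :
    Nf α k d m = α * Nf α k d (m + 1) + ext0 k d m := by
  unfold Nf ext0
  split_ifs with h
  · have e : Finset.Icc m k = insert m (Finset.Icc (m + 1) k) := by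
      ext j
      simp only [Finset.mem_Icc, Finset.mem_insert]
      omega
    rw [e, Finset.sum_insert (by simp), sub_self, zpow_zero, mul_one, add_comm, Finset.mul_sum]
    congr 1
    apply Finset.sum_congr rfl
    intro j _
    have : α ^ (j - m) = α * α ^ (j - (m + 1)) := by
      rw [← zpow_one_add₀ hα]
      congr 1
      ring
    rw [this]
    ring
  · rw [Finset.Icc_eq_empty (by omega), Finset.Icc_eq_empty (by omega)]
    simp

theorem Nf_gt (α : ℂ) (k : ℤ) (d : ℤ → ℤ) (m : ℤ) (h : k < m) : Nf α k d m = 0 := by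
  unfold Nf
  rw [Finset.Icc_eq_empty (by omega)]
  simp

section

variable {α : ℂ} {a₁ a₂ : ℤ} {c : ℕ} [NeZero c] (him : α.im ≠ 0) (h1 : 1 < ‖α‖) (hA : 0 < a₂)
  (hroot : (a₂ : ℂ) * α ^ 2 + a₁ * α + c = 0)

theorem ext0_bounds {x : ℂ} {k : ℤ} {d : ℤ → ℤ} (h : IsExpansion α c a₁ a₂ x k d) (j : ℤ) :
    0 ≤ ext0 k d j ∧ ext0 k d j < c := by
  unfold ext0
  split_ifs with hj
  · have := h.digit j hj
    rwa [abs_of_nonneg (by positivity : (0 : ℤ) ≤ (c : ℤ))] at this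
  · exact ⟨le_rfl, by exact_mod_cast NeZero.pos c⟩

set_option linter.unusedSectionVars false in
include him h1 hA hroot in
/-- The integer parts as elements of `ℤ²`. -/
theorem exists_seq {x : ℂ} {k : ℤ} {d : ℤ → ℤ} (h : IsExpansion α c a₁ a₂ x k d) :
    ∃ s : ℤ → ℤ × ℤ, (∀ m, zc α a₁ a₂ (s m) = Nf α k d m) ∧
      (∀ m, pr a₂ a₁ c (s m) = s (m + 1)) ∧ (∀ m, dg a₂ a₁ c (s m) = ext0 k d m) := by
  have hα0 : α ≠ 0 := by
    intro h0
    rw [h0] at him
    exact him rfl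
  have hex : ∀ m, ∃ s : ℤ × ℤ, zc α a₁ a₂ s = Nf α k d m := by
    intro m
    by_cases hm : m ≤ k
    · obtain ⟨a, b, hab⟩ := h.lattice m hm
      exact ⟨(a, b), by rw [zc, Nf, hab]⟩
    · exact ⟨0, by rw [Nf_gt α k d m (by omega)]; simp [zc]⟩
  choose s hs using hex
  have key : ∀ m, pr a₂ a₁ c (s m) = s (m + 1) ∧ dg a₂ a₁ c (s m) = ext0 k d m := by
    intro m
    have hb := ext0_bounds h m
    apply zc_step him hA hroot (s m) (s (m + 1)) (ext0 k d m) hb.1 hb.2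
    rw [hs, hs]
    exact Nf_step hα0 k d m
  exact ⟨s, hs, fun m => (key m).1, fun m => (key m).2⟩

include him h1 in
theorem approx {x : ℂ} {k : ℤ} {d : ℤ → ℤ} (h : IsExpansion α c a₁ a₂ x k d) (m : ℤ) :
    ‖α ^ (-m) * x - Nf α k d m‖ ≤ c / (‖α‖ - 1) := by
  have hα0 : α ≠ 0 := by
    intro h0
    rw [h0] at him
    exact him rfl
  have hn0 : (0 : ℝ) < ‖α‖ := by linarith
  have hn1 : (0 : ℝ) < ‖α‖ - 1 := by linarith
  set R : ℝ := c / (‖α‖ - 1) with hR
  have hRc : R * (‖α‖ - 1) = c := by rw [hR]; field_simp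
  have hR0 : 0 ≤ R := by positivity
  -- the partial sums
  set g : ℤ → ℂ := fun m => α ^ m * Nf α k d m with hg
  have hstep : ∀ m, g m = g (m + 1) + ext0 k d m * α ^ m := by
    intro m
    simp only [hg]
    rw [Nf_step hα0 k d m, zpow_add_one₀ hα0]
    ring
  have hlim : Tendsto (fun n : ℕ => g (k + 1 - n)) atTop (𝓝 x) := by
    have h2 := h.sum.tendsto_sum_nat
    refine h2.congr fun n => ?_
    induction n with
    | zero =>
      simp only [Finset.range_zero, Finset.sum_empty, Nat.cast_zero, sub_zero, hg]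
      rw [Nf_gt α k d (k + 1) (by omega), mul_zero]
    | succ n ih =>
      rw [Finset.sum_range_succ, ih]
      have e : k + 1 - ((n + 1 : ℕ) : ℤ) = k - n := by push_cast; ring
      rw [e, hstep (k - n)]
      have e2 : k - (n : ℤ) + 1 = k + 1 - n := by ring
      rw [e2]
      congr 2
      unfold ext0
      rw [if_pos (by omega)]
  have hdiff : ∀ (m : ℤ) (n : ℕ), ‖g (m - n) - g m‖ ≤ R * (‖α‖ ^ m - ‖α‖ ^ (m - n)) := by
    intro m n
    induction n with
    | zero => simp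
    | succ n ih =>
      have e : m - ((n + 1 : ℕ) : ℤ) = m - n - 1 := by push_cast; ring
      rw [e]
      have h3 := hstep (m - n - 1)
      rw [sub_add_cancel] at h3
      have h4 : g (m - n - 1) - g m = (g (m - n) - g m) + ext0 k d (m - n - 1) * α ^ (m - n - 1) := by
        rw [h3]; ring
      rw [h4]
      refine (norm_add_le _ _).trans ?_
      have h5 : ‖(ext0 k d (m - n - 1) : ℂ) * α ^ (m - n - 1 : ℤ)‖ ≤ c * ‖α‖ ^ (m - n - 1 : ℤ) := by
        rw [norm_mul, norm_zpow, Complex.norm_intCast]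
        apply mul_le_mul_of_nonneg_right _ (by positivity)
        have hb := ext0_bounds h (m - n - 1)
        rw [abs_of_nonneg (by exact_mod_cast hb.1)]
        exact_mod_cast hb.2.le
      have h6 : ‖α‖ ^ (m - n : ℤ) = ‖α‖ * ‖α‖ ^ (m - n - 1 : ℤ) := by
        rw [← zpow_one_add₀ hn0.ne']
        congr 1
        ring
      rw [← hRc] at h5
      rw [h6] at ih
      linarith
  have hbound : ∀ᶠ n : ℕ in atTop, ‖g (k + 1 - n) - g m‖ ≤ R * ‖α‖ ^ m := by
    filter_upwards [eventually_ge_atTop (k + 1 - m).toNat] with n hn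
    have hn' : k + 1 - m ≤ n := by omega
    obtain ⟨j, hj⟩ : ∃ j : ℕ, k + 1 - (n : ℤ) = m - j := ⟨(m - (k + 1 - n)).toNat, by omega⟩
    rw [hj]
    refine (hdiff m j).trans ?_
    apply mul_le_mul_of_nonneg_left _ hR0
    have : 0 < ‖α‖ ^ (m - j : ℤ) := by positivity
    linarith
  have hfin : ‖x - g m‖ ≤ R * ‖α‖ ^ m :=
    le_of_tendsto ((hlim.sub_const _).norm) hbound
  have e : α ^ (-m) * x - Nf α k d m = α ^ (-m) * (x - g m) := by
    simp only [hg]
    rw [mul_sub, ← mul_assoc, ← zpow_add₀ hα0]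
    simp
  rw [e, norm_mul, norm_zpow, zpow_neg, inv_mul_le_iff₀ (by positivity)]
  linarith

end

section

variable {α : ℂ} {a₁ a₂ : ℤ} {c : ℕ} [NeZero c] (him : α.im ≠ 0) (h1 : 1 < ‖α‖) (hA : 0 < a₂)
  (hroot : (a₂ : ℂ) * α ^ 2 + a₁ * α + c = 0)

omit [NeZero c] in
include hroot in
theorem zc_pr (s : ℤ × ℤ) : zc α a₁ a₂ s = α * zc α a₁ a₂ (pr a₂ a₁ c s) + dg a₂ a₁ c s := by
  rw [mul_zc hroot]
  simp only [zc, pr, dg]
  have h1 := Int.emod_add_mul_ediv (a₂ * s.1 + a₁ * s.2) c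
  have h2 : (((a₂ * s.1 + a₁ * s.2) % c : ℤ) : ℂ) =
      a₂ * s.1 + a₁ * s.2 - c * (((a₂ * s.1 + a₁ * s.2) / c : ℤ) : ℂ) := by
    rw [eq_sub_iff_add_eq]
    exact_mod_cast h1
  rw [h2]
  push_cast
  ring

include him h1 hA hroot in
/-- If all lattice points have finite digit strings, all complex numbers have expansions. -/
theorem exists_expansion (hfin : ∀ s : ℤ × ℤ, ∃ n : ℕ, (pr a₂ a₁ c)^[n] s = 0) (x : ℂ) :
    ∃ k d, IsExpansion α c a₁ a₂ x k d := by
  have hα0 : α ≠ 0 := by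
    intro h0
    rw [h0] at him
    exact him rfl
  have hn0 : (0 : ℝ) < ‖α‖ := by linarith
  have hn1 : (0 : ℝ) < ‖α‖ - 1 := by linarith
  have hAr : (a₂ : ℝ) ≠ 0 := by exact_mod_cast hA.ne'
  set R1 : ℝ := ‖(a₂ : ℂ)‖ + ‖(a₂ : ℂ) * α + a₁‖ with hR1
  set R : ℝ := R1 + c / (‖α‖ - 1) with hR
  have hRc : R + c ≤ ‖α‖ * R := by
    have e : (c : ℝ) / (‖α‖ - 1) * (‖α‖ - 1) = c := by field_simp
    have : 0 ≤ R1 * (‖α‖ - 1) := by positivity
    have : ‖α‖ * R - R = R1 * (‖α‖ - 1) + c / (‖α‖ - 1) * (‖α‖ - 1) := by rw [hR]; ring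
    rw [e] at this
    linarith
  have hR0 : 0 ≤ R := by positivity
  -- near lattice points
  have hnear : ∀ y : ℂ, ∃ s : ℤ × ℤ, ‖y - zc α a₁ a₂ s‖ ≤ R := by
    intro y
    set s1 : ℝ := inner ℝ (sig α a₂) y with hs1
    set s2 : ℝ := inner ℝ (tau α a₂) y with hs2
    have hy : y = s1 * a₂ + s2 * (a₂ * α + a₁) := by
      obtain ⟨hB, _⟩ := coeffs him hroot
      rw [hs1, hs2, inner_sig, inner_tau]
      apply Complex.ext
      · simp only [add_re, mul_re, ofReal_re, ofReal_im, intCast_re, intCast_im, zero_mul, sub_zero,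
          mul_zero, add_im, mul_im, add_zero, hB]
        field_simp
        ring
      · simp only [add_re, mul_re, ofReal_re, ofReal_im, intCast_re, intCast_im, zero_mul, sub_zero,
          mul_zero, add_im, mul_im, add_zero, zero_add]
        field_simp
    refine ⟨(⌊s1⌋, ⌊s2⌋), ?_⟩
    have e : y - zc α a₁ a₂ (⌊s1⌋, ⌊s2⌋) =
        ((Int.fract s1 : ℝ) : ℂ) * a₂ + ((Int.fract s2 : ℝ) : ℂ) * (a₂ * α + a₁) := by
      conv_lhs => rw [hy]
      simp only [zc, Int.fract]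
      push_cast
      ring
    rw [e]
    refine (norm_add_le _ _).trans ?_
    rw [norm_mul, norm_mul, Complex.norm_real, Complex.norm_real, Real.norm_of_nonneg (Int.fract_nonneg _),
      Real.norm_of_nonneg (Int.fract_nonneg _)]
    have h2 := mul_le_of_le_one_left (norm_nonneg (a₂ : ℂ)) (Int.fract_lt_one s1).le
    have h3 := mul_le_of_le_one_left (norm_nonneg ((a₂ : ℂ) * α + a₁)) (Int.fract_lt_one s2).le
    have h4 : 0 ≤ (c : ℝ) / (‖α‖ - 1) := by positivity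
    linarith
  -- the predecessor of a near point is near
  have hprnear : ∀ (m : ℤ) (s : ℤ × ℤ), ‖α ^ (-m) * x - zc α a₁ a₂ s‖ ≤ R →
      ‖α ^ (-(m + 1)) * x - zc α a₁ a₂ (pr a₂ a₁ c s)‖ ≤ R := by
    intro m s hs
    have e1 : α * (α ^ (-(m + 1)) * x - zc α a₁ a₂ (pr a₂ a₁ c s)) =
        (α ^ (-m) * x - zc α a₁ a₂ s) + dg a₂ a₁ c s := by
      rw [zc_pr hroot s, mul_sub, ← mul_assoc, ← zpow_one_add₀ hα0]
      have : (1 + -(m + 1) : ℤ) = -m := by ring
      rw [this]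
      ring
    have h2 : ‖α‖ * ‖α ^ (-(m + 1)) * x - zc α a₁ a₂ (pr a₂ a₁ c s)‖ ≤ ‖α‖ * R := by
      rw [← norm_mul, e1]
      refine (norm_add_le _ _).trans (le_trans ?_ hRc)
      apply add_le_add hs
      rw [Complex.norm_intCast, abs_of_nonneg (by exact_mod_cast dg_nonneg a₂ a₁ c (NeZero.pos c) s)]
      exact_mod_cast (dg_lt a₂ a₁ c (NeZero.pos c) s).le
    exact le_of_mul_le_mul_left h2 hn0
  -- finiteness
  have hfinite : ∀ y : ℂ, {s : ℤ × ℤ | ‖y - zc α a₁ a₂ s‖ ≤ R}.Finite := by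
    intro y
    obtain ⟨b, hb⟩ := exists_nat_ge (max (‖sig α a₂‖ * R + 1) (‖tau α a₂‖ * R + 1))
    have hb1 : ‖sig α a₂‖ * R + 1 ≤ b := (le_max_left _ _).trans hb
    have hb2 : ‖tau α a₂‖ * R + 1 ≤ b := (le_max_right _ _).trans hb
    apply Set.Finite.subset (((Bx b).image (fun f =>
      (⌊(inner ℝ (sig α a₂) y : ℝ)⌋, ⌊(inner ℝ (tau α a₂) y : ℝ)⌋) + f)).finite_toSet)
    intro s hs
    obtain ⟨f, hf, h2⟩ := near_box him hA hroot R b hb1 hb2 y s hs
    rw [Finset.mem_coe, Finset.mem_image]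
    exact ⟨f, hf, h2.symm⟩
  choose t ht using fun n : ℕ => hnear (α ^ (-(-(n : ℤ))) * x)
  have hiter : ∀ (n j : ℕ), ‖α ^ (-(-(n : ℤ))) * x -
      zc α a₁ a₂ ((pr a₂ a₁ c)^[j] (t (n + j)))‖ ≤ R := by
    intro n j
    have key : ∀ i ≤ j, ‖α ^ (-(-((n + j : ℕ) : ℤ) + i)) * x -
        zc α a₁ a₂ ((pr a₂ a₁ c)^[i] (t (n + j)))‖ ≤ R := by
      intro i
      induction i with
      | zero => intro _; simpa using ht (n + j)
      | succ i ih =>
        intro hi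
        have := hprnear _ _ (ih (by omega))
        rw [Function.iterate_succ_apply']
        have e : (-(-((n + j : ℕ) : ℤ) + ((i + 1 : ℕ) : ℤ))) = -(-((n + j : ℕ) : ℤ) + i + 1) := by
          push_cast; ring
        rw [e]
        exact this
    have := key j le_rfl
    have e : (-(-((n + j : ℕ) : ℤ) + (j : ℤ))) = -(-(n : ℤ)) := by push_cast; ring
    rwa [e] at this
  -- an ultrafilter limit
  let U : Ultrafilter ℕ := Filter.hyperfilter ℕ
  have hlim : ∀ n : ℕ, ∃ s : ℤ × ℤ, ‖α ^ (-(-(n : ℤ))) * x - zc α a₁ a₂ s‖ ≤ R ∧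
      ∀ᶠ m in (U : Filter ℕ), (pr a₂ a₁ c)^[m - n] (t m) = s := by
    intro n
    have h2 : ∀ᶠ m in (U : Filter ℕ), ∃ s ∈ {s : ℤ × ℤ | ‖α ^ (-(-(n : ℤ))) * x - zc α a₁ a₂ s‖ ≤ R},
        (pr a₂ a₁ c)^[m - n] (t m) = s := by
      have h3 : ∀ᶠ m in (U : Filter ℕ), n ≤ m := by
        have : ∀ᶠ m in (atTop : Filter ℕ), n ≤ m := eventually_ge_atTop n
        exact (Nat.hyperfilter_le_atTop) this
      filter_upwards [h3] with m hm
      obtain ⟨j, rfl⟩ := Nat.exists_eq_add_of_le hm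
      refine ⟨_, ?_, rfl⟩
      rw [Nat.add_sub_cancel_left]
      exact hiter n j
    rw [Ultrafilter.eventually_exists_mem_iff (hfinite _)] at h2
    obtain ⟨s, hs, h3⟩ := h2
    exact ⟨s, hs, h3⟩
  choose s hs1 hs2 using hlim
  have hs3 : ∀ n, pr a₂ a₁ c (s (n + 1)) = s n := by
    intro n
    have h3 : ∀ᶠ m in (U : Filter ℕ), n + 1 ≤ m := by
      have : ∀ᶠ m in (atTop : Filter ℕ), n + 1 ≤ m := eventually_ge_atTop (n + 1)
      exact (Nat.hyperfilter_le_atTop) this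
    obtain ⟨m, ⟨e1, e2⟩, e3⟩ := (((hs2 (n + 1)).and (hs2 n)).and h3).exists
    rw [← e1, ← e2, ← Function.iterate_succ_apply' (pr a₂ a₁ c)]
    congr 1
    omega
  obtain ⟨n0, hn0'⟩ := hfin (s 0)
  -- the bi-infinite sequence
  set S : ℤ → ℤ × ℤ := fun m => if m ≤ 0 then s (-m).toNat else (pr a₂ a₁ c)^[m.toNat] (s 0) with hS
  have hSpr : ∀ m, pr a₂ a₁ c (S m) = S (m + 1) := by
    intro m
    simp only [hS]
    rcases lt_trichotomy m (0 : ℤ) with h | h | h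
    · rw [if_pos h.le, if_pos (by omega)]
      have e : (-m).toNat = (-(m + 1)).toNat + 1 := by omega
      rw [e, hs3]
    · subst h
      simp
    · rw [if_neg (by omega), if_neg (by omega)]
      have e : (m + 1).toNat = m.toNat + 1 := by omega
      rw [e, Function.iterate_succ_apply']
  have hpr0 : pr a₂ a₁ c 0 = 0 := by simp [pr]
  have hSzero : ∀ j : ℕ, S (n0 + 1 + j) = 0 := by
    intro j
    induction j with
    | zero =>
      simp only [hS, Nat.cast_zero, add_zero]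
      rw [if_neg (by omega)]
      have e : ((n0 : ℤ) + 1).toNat = n0 + 1 := by omega
      rw [e, Function.iterate_succ_apply', hn0', hpr0]
    | succ j ih =>
      have : (n0 : ℤ) + 1 + ((j + 1 : ℕ) : ℤ) = (n0 + 1 + j) + 1 := by push_cast; ring
      rw [this, ← hSpr, ih, hpr0]
  have hSnear : ∀ n : ℕ, ‖α ^ (n : ℤ) * x - zc α a₁ a₂ (S (-(n : ℤ)))‖ ≤ R := by
    intro n
    have := hs1 n
    rw [neg_neg] at this
    simp only [hS]
    rw [if_pos (by omega), neg_neg, Int.toNat_natCast]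
    exact this
  set k : ℤ := (n0 : ℤ) with hk
  set d : ℤ → ℤ := fun m => dg a₂ a₁ c (S m) with hd
  have hd0 : ∀ m, 0 ≤ d m := fun m => dg_nonneg a₂ a₁ c (NeZero.pos c) _
  have hdc : ∀ m, d m < c := fun m => dg_lt a₂ a₁ c (NeZero.pos c) _
  -- integer parts
  have hNf : ∀ j : ℕ, zc α a₁ a₂ (S (k + 1 - j)) = Nf α k d (k + 1 - j) := by
    intro j
    induction j with
    | zero =>
      have := hSzero 0
      simp only [Nat.cast_zero, add_zero] at this
      simp only [Nat.cast_zero, sub_zero]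
      rw [hk, this, Nf_gt _ _ _ _ (by omega)]
      simp [zc]
    | succ j ih =>
      have e : k + 1 - ((j + 1 : ℕ) : ℤ) = k - j := by push_cast; ring
      have e2 : k - (j : ℤ) + 1 = k + 1 - j := by ring
      rw [e, zc_pr hroot, hSpr, Nf_step hα0, e2, ih]
      congr 2
      unfold ext0
      rw [if_pos (by omega)]
  have hNf' : ∀ m ≤ k + 1, zc α a₁ a₂ (S m) = Nf α k d m := by
    intro m hm
    have := hNf (k + 1 - m).toNat
    rwa [show k + 1 - (((k + 1 - m).toNat : ℕ) : ℤ) = m by omega] at this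
  refine ⟨k, d, ?_, ?_, ?_⟩
  · intro j _
    refine ⟨hd0 j, ?_⟩
    rw [abs_of_nonneg (by positivity : (0 : ℤ) ≤ (c : ℤ))]
    exact hdc j
  · have hterm : ∀ i : ℕ, ‖(d (k - i) : ℂ) * α ^ (k - i : ℤ)‖ ≤ (c * ‖α‖ ^ k) * (‖α‖⁻¹) ^ i := by
      intro i
      rw [norm_mul, norm_zpow, Complex.norm_intCast, zpow_sub₀ hn0.ne', zpow_natCast, inv_pow,
        mul_assoc, ← div_eq_mul_inv]
      apply mul_le_mul_of_nonneg_right _ (by positivity)
      rw [abs_of_nonneg (by exact_mod_cast hd0 _)]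
      exact_mod_cast (hdc _).le
    have hsummable : Summable fun i : ℕ => (d (k - i) : ℂ) * α ^ (k - i : ℤ) := by
      apply Summable.of_norm_bounded _ hterm
      apply Summable.mul_left
      exact summable_geometric_of_lt_one (by positivity) (inv_lt_one_of_one_lt₀ h1)
    rw [hsummable.hasSum_iff_tendsto_nat]
    have hpart : ∀ n : ℕ, ∑ i ∈ Finset.range n, (d (k - i) : ℂ) * α ^ (k - i : ℤ) =
        α ^ (k + 1 - n : ℤ) * Nf α k d (k + 1 - n) := by
      intro n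
      induction n with
      | zero =>
        simp only [Finset.range_zero, Finset.sum_empty, Nat.cast_zero, sub_zero]
        rw [Nf_gt α k d (k + 1) (by omega), mul_zero]
      | succ n ih =>
        have e : k + 1 - ((n + 1 : ℕ) : ℤ) = k - n := by push_cast; ring
        have e2 : k - (n : ℤ) + 1 = k + 1 - n := by ring
        rw [Finset.sum_range_succ, ih, e, Nf_step hα0 k d (k - n), e2,
          show (α ^ (k + 1 - n : ℤ)) = α ^ (k - n : ℤ) * α by
            rw [← zpow_add_one₀ hα0]; congr 1; ring]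
        have : ext0 k d (k - n) = d (k - n) := by
          unfold ext0
          rw [if_pos (by omega)]
        rw [this]
        ring
    simp_rw [hpart]
    rw [tendsto_iff_norm_sub_tendsto_zero]
    have hb : ∀ᶠ n : ℕ in atTop, ‖α ^ (k + 1 - n : ℤ) * Nf α k d (k + 1 - n) - x‖ ≤
        (R * ‖α‖ ^ (k + 1)) * (‖α‖⁻¹) ^ n := by
      filter_upwards [eventually_ge_atTop (k + 1).toNat] with n hn
      obtain ⟨j, hj⟩ : ∃ j : ℕ, k + 1 - (n : ℤ) = -(j : ℤ) := ⟨(n - (k + 1)).toNat, by omega⟩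
      rw [hj, ← hNf' _ (by omega)]
      have h2 := hSnear j
      have e : α ^ (-(j : ℤ)) * zc α a₁ a₂ (S (-(j : ℤ))) - x =
          -(α ^ (-(j : ℤ)) * (α ^ (j : ℤ) * x - zc α a₁ a₂ (S (-(j : ℤ))))) := by
        rw [mul_sub, ← mul_assoc, ← zpow_add₀ hα0]
        simp
      rw [e, norm_neg, norm_mul, norm_zpow]
      have e3 : ‖α‖ ^ (-(j : ℤ)) = ‖α‖ ^ (k + 1) * (‖α‖⁻¹) ^ n := by
        rw [← hj, zpow_sub₀ hn0.ne', zpow_natCast, inv_pow, div_eq_mul_inv]
      rw [e3]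
      calc _ ≤ ‖α‖ ^ (k + 1) * ‖α‖⁻¹ ^ n * R := mul_le_mul_of_nonneg_left h2 (by positivity)
        _ = _ := by ring
    apply squeeze_zero' (Eventually.of_forall fun n => norm_nonneg _) hb
    have := (tendsto_pow_atTop_nhds_zero_of_lt_one (r := ‖α‖⁻¹) (by positivity)
      (inv_lt_one_of_one_lt₀ h1)).const_mul (R * ‖α‖ ^ (k + 1))
    simpa using this
  · intro m hm
    have := hNf' m (by omega)
    unfold Nf at this
    rw [← this]
    exact ⟨(S m).1, (S m).2, rfl⟩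

end

theorem exists_minPoly (α : ℂ) (hα : ∃ p q : ℚ, α = p + q * I) :
    ∃ a₀ a₁ a₂ : ℤ, IsMinPoly α a₀ a₁ a₂ := by
  obtain ⟨p, q, rfl⟩ := hα
  -- a common denominator
  obtain ⟨D, hD⟩ : ∃ D : ℤ, D = p.den * q.den := ⟨_, rfl⟩
  have hD0 : 0 < D := by rw [hD]; have := p.pos; have := q.pos; positivity
  have hp : (p : ℂ) * D = ((p.num * q.den : ℤ) : ℂ) := by
    rw [hD]
    have h := Rat.mul_den_eq_num p
    have h' : ((p * p.den : ℚ) : ℂ) = ((p.num : ℚ) : ℂ) := by rw [h]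
    push_cast at h' ⊢
    rw [← mul_assoc, h']
  have hq : (q : ℂ) * D = ((q.num * p.den : ℤ) : ℂ) := by
    rw [hD]
    have h := Rat.mul_den_eq_num q
    have h' : ((q * q.den : ℚ) : ℂ) = ((q.num : ℚ) : ℂ) := by rw [h]
    push_cast at h' ⊢
    rw [mul_comm (p.den : ℂ), ← mul_assoc, h']
  set P : ℤ := p.num * q.den with hP
  set Q : ℤ := q.num * p.den with hQ
  -- D² X² - 2 D P X + (P² + Q²)
  set b₀ : ℤ := P ^ 2 + Q ^ 2
  set b₁ : ℤ := -2 * D * P
  set b₂ : ℤ := D ^ 2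
  have hb : (b₂ : ℂ) * (p + q * I) ^ 2 + b₁ * (p + q * I) + b₀ = 0 := by
    simp only [b₀, b₁, b₂]
    push_cast
    rw [← hp, ← hq]
    linear_combination ((q : ℂ) ^ 2 * D ^ 2) * I_sq
  have hb2 : 0 < b₂ := by positivity
  set G : ℕ := Int.gcd (Int.gcd b₀ b₁) b₂ with hG
  have hG0 : 0 < G := Int.gcd_pos_of_ne_zero_right _ hb2.ne'
  have hGz : (G : ℤ) ≠ 0 := by exact_mod_cast hG0.ne'
  have d01 : (G : ℤ) ∣ (Int.gcd b₀ b₁ : ℤ) := Int.gcd_dvd_left _ _
  have d2 : (G : ℤ) ∣ b₂ := Int.gcd_dvd_right _ _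
  have d0 : (G : ℤ) ∣ b₀ := d01.trans (Int.gcd_dvd_left _ _)
  have d1 : (G : ℤ) ∣ b₁ := d01.trans (Int.gcd_dvd_right _ _)
  obtain ⟨a₀, ha₀⟩ := d0
  obtain ⟨a₁, ha₁⟩ := d1
  obtain ⟨a₂, ha₂⟩ := d2
  have hGpos : (0 : ℤ) < G := by exact_mod_cast hG0
  refine ⟨a₀, a₁, a₂, ?_, ?_, ?_⟩
  · by_contra hcon
    push Not at hcon
    nlinarith
  · have e1 : Int.gcd b₀ b₁ = G * Int.gcd a₀ a₁ := by
      rw [ha₀, ha₁, Int.gcd_mul_left, Int.natAbs_natCast]
    have e2 : G = G * Int.gcd (Int.gcd a₀ a₁) a₂ := by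
      conv_lhs => rw [hG, e1, ha₂]
      push_cast
      rw [Int.gcd_mul_left, Int.natAbs_natCast]
    exact (Nat.eq_of_mul_eq_mul_left hG0 (by rw [mul_one]; exact e2)).symm
  · rw [ha₀, ha₁, ha₂] at hb
    push_cast at hb
    have hGc : (G : ℂ) ≠ 0 := by exact_mod_cast hG0.ne'
    apply mul_left_cancel₀ hGc
    rw [mul_zero, ← hb]
    ring

/-- For every `α ∈ ℚ(i) \ ℝ` with `|α| > 1`, with minimal primitive polynomial
`a₂ X² + a₁ X + a₀` (which exists), and for almost every `x ∈ ℂ`: any two `α`-expansions of `x` differ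
only by leading zeros, and in every `α`-expansion of `x` every word of length `l ≥ 1` over
`{0, …, |a₀| - 1}` has frequency `|a₀| ^ (-l)`. Moreover, if all points of `Λ_α` have finite digit
strings, then every `x ∈ ℂ` has an `α`-expansion. -/
theorem result (α : ℂ) (hα : ∃ p q : ℚ, α = p + q * I) (him : α.im ≠ 0) (h1 : 1 < ‖α‖) :
    (∃ a₀ a₁ a₂ : ℤ, IsMinPoly α a₀ a₁ a₂) ∧
    ∀ a₀ a₁ a₂ : ℤ, IsMinPoly α a₀ a₁ a₂ →
      (∀ᵐ x : ℂ,
        (∀ k d k' d', IsExpansion α a₀ a₁ a₂ x k d → IsExpansion α a₀ a₁ a₂ x k' d' →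
          ∀ j, (if j ≤ k then d j else 0) = (if j ≤ k' then d' j else 0)) ∧
        (∀ k d, IsExpansion α a₀ a₁ a₂ x k d → ∀ l : ℕ, 1 ≤ l → ∀ w : Fin l → ℤ,
          (∀ i, 0 ≤ w i ∧ w i < |a₀|) → HasFreq k d w (1 / (|a₀| : ℝ) ^ l))) ∧
      ((∀ N ∈ Lam α a₁ a₂, FinDigits α a₀ a₁ a₂ N) →
        ∀ x : ℂ, ∃ k d, IsExpansion α a₀ a₁ a₂ x k d) := by
  refine ⟨exists_minPoly α hα, ?_⟩
  intro a₀ a₁ a₂ ⟨hA, hgcd, hroot⟩
  have hα0 : α ≠ 0 := by
    intro h0
    rw [h0] at him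
    exact him rfl
  have hAr : (0 : ℝ) < a₂ := by exact_mod_cast hA
  have hnsq : ‖α‖ ^ 2 = α.re ^ 2 + α.im ^ 2 := by
    rw [← Complex.normSq_eq_norm_sq, Complex.normSq_apply]; ring
  have hnsq1 : 1 < α.re ^ 2 + α.im ^ 2 := by rw [← hnsq]; nlinarith
  -- a₀ is positive
  have ha₀r : (a₀ : ℝ) = a₂ * (α.re ^ 2 + α.im ^ 2) ∧ (a₁ : ℝ) = -2 * a₂ * α.re := by
    have e1 := congrArg Complex.im hroot
    have e2 := congrArg Complex.re hroot
    simp only [pow_two, add_im, mul_im, intCast_re, intCast_im, zero_mul, add_zero,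
      zero_im, mul_re, sub_zero, add_re, zero_re] at e1 e2
    have h3 : (a₁ : ℝ) = -2 * a₂ * α.re := by
      have : ((a₁ : ℝ) + 2 * a₂ * α.re) * α.im = 0 := by linarith
      rcases mul_eq_zero.mp this with h | h
      · linarith
      · exact absurd h him
    refine ⟨?_, h3⟩
    rw [h3] at e2
    nlinarith
  have hlt : a₂ < a₀ := by
    have : (a₂ : ℝ) < a₀ := by rw [ha₀r.1]; nlinarith
    exact_mod_cast this
  have hdisc : a₁ ^ 2 < 4 * a₂ * a₀ := by
    have : (a₁ : ℝ) ^ 2 < 4 * a₂ * a₀ := by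
      rw [ha₀r.1, ha₀r.2]
      have : 0 < (a₂ : ℝ) ^ 2 * α.im ^ 2 := by positivity
      nlinarith
    exact_mod_cast this
  have ha₀pos : 0 < a₀ := hA.trans hlt
  obtain ⟨c, hc⟩ : ∃ c : ℕ, (c : ℤ) = a₀ := ⟨a₀.toNat, by omega⟩
  subst hc
  have hc0 : 0 < c := by exact_mod_cast ha₀pos
  have : NeZero c := ⟨hc0.ne'⟩
  have hg : ∃ x y z : ℤ, x * a₂ + y * a₁ + z * c = 1 := by
    obtain ⟨X, Y, e1⟩ : ∃ X Y : ℤ, ((Int.gcd (Int.gcd (c : ℤ) a₁) a₂ : ℕ) : ℤ) =
      (Int.gcd (c : ℤ) a₁ : ℤ) * X + a₂ * Y := ⟨_, _, Int.gcd_eq_gcd_ab _ a₂⟩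
    obtain ⟨U, V, e2⟩ : ∃ U V : ℤ, (Int.gcd (c : ℤ) a₁ : ℤ) = (c : ℤ) * U + a₁ * V :=
      ⟨_, _, Int.gcd_eq_gcd_ab (c : ℤ) a₁⟩
    rw [hgcd, Nat.cast_one] at e1
    refine ⟨Y, V * X, U * X, ?_⟩
    rw [e1, e2]
    ring
  have hroot' : (a₂ : ℂ) * α ^ 2 + a₁ * α + (c : ℂ) = 0 := by exact_mod_cast hroot
  have hcabs : |(c : ℤ)| = c := abs_of_nonneg (by positivity)
  refine ⟨?_, fun hfin => exists_expansion him h1 hA hroot' fun s => ?_⟩
  swap
  · -- finite digit strings in terms of `pr`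
    obtain ⟨n, M, d, hM0, hMn, hML, hM⟩ := hfin (zc α a₁ a₂ s) ⟨s.1, s.2, rfl⟩
    have key : ∀ i ≤ n, zc α a₁ a₂ ((pr a₂ a₁ c)^[i] s) = M i := by
      intro i
      induction i with
      | zero => intro _; exact hM0.symm
      | succ i ih =>
        intro hi
        obtain ⟨p, q, hpq⟩ := hML (i + 1) hi
        obtain ⟨hd, hstep⟩ := hM i (by omega)
        rw [hcabs] at hd
        have hz : zc α a₁ a₂ (p, q) = M (i + 1) := by rw [hpq]; rfl
        have h3 := zc_step him hA hroot' ((pr a₂ a₁ c)^[i] s) (p, q) (d i) hd.1 hd.2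
          (by rw [ih (by omega), hz]; exact hstep)
        rw [Function.iterate_succ_apply', h3.1, hz]
    refine ⟨n, ?_⟩
    have h0 := key n le_rfl
    rw [hMn] at h0
    have e1 := inner_sig_zc him hA hroot' ((pr a₂ a₁ c)^[n] s)
    have e2 := inner_tau_zc him hA hroot' ((pr a₂ a₁ c)^[n] s)
    rw [h0, inner_zero_right] at e1 e2
    ext
    · exact_mod_cast e1.symm
    · exact_mod_cast e2.symm
  -- constants
  set R : ℝ := c / (‖α‖ - 1) with hR
  obtain ⟨b, hb⟩ := exists_nat_ge (max (‖sig α a₂‖ * R + 1) (‖tau α a₂‖ * R + 1))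
  have hb1 : ‖sig α a₂‖ * R + 1 ≤ b := (le_max_left _ _).trans hb
  have hb2 : ‖tau α a₂‖ * R + 1 ≤ b := (le_max_right _ _).trans hb
  obtain ⟨K, hBK, hK⟩ := exists_closed him hA hroot' h1 b
  have hequi : ∀ᵐ x : ℂ, ∀ m : ℤ, Equi α (sig α a₂) (tau α a₂) (α ^ (-m) * x) := by
    rw [ae_all_iff]
    intro m
    exact ae_equi h1 _ _ (dual_indep him hA hroot') _ (zpow_ne_zero _ hα0)
  filter_upwards [hequi] with x hx
  -- the shadowing sequence
  set fl : ℤ → ℕ → ℤ × ℤ := fun m n =>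
    (⌊(inner ℝ (sig α a₂) (α ^ n * (α ^ (-m) * x)) : ℝ)⌋,
      ⌊(inner ℝ (tau α a₂) (α ^ n * (α ^ (-m) * x)) : ℝ)⌋) with hfl
  have hflU : ∀ m, EqU (fl m) := fun m q _ g ε hε => hx m q g ε hε
  have hshadow : ∀ (k : ℤ) (d : ℤ → ℤ), IsExpansion α c a₁ a₂ x k d →
      ∃ s : ℤ → ℤ × ℤ, (∀ m, pr a₂ a₁ c (s m) = s (m + 1)) ∧
        (∀ m, dg a₂ a₁ c (s m) = ext0 k d m) ∧
        ∀ (m : ℤ) (n : ℕ), ∃ f ∈ Bx b, s (m - n) = fl m n + f := by
    intro k d h
    obtain ⟨s, hs1, hs2, hs3⟩ := exists_seq him h1 hA hroot' h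
    refine ⟨s, hs2, hs3, fun m n => ?_⟩
    apply near_box him hA hroot' R b hb1 hb2
    rw [hs1]
    have := approx him h1 h (m - n)
    have e : α ^ (-(m - n) : ℤ) * x = α ^ n * (α ^ (-m) * x) := by
      rw [← mul_assoc, ← zpow_natCast, ← zpow_add₀ hα0]
      congr 2
      ring
    rw [e] at this
    exact this
  constructor
  · -- uniqueness
    intro k d k' d' h h' j
    obtain ⟨s, hs1, hs2, hs3⟩ := hshadow k d h
    obtain ⟨s', hs1', hs2', hs3'⟩ := hshadow k' d' h'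
    have hu := unique a₂ a₁ c hg hA hlt hdisc K (Bx b) hBK hK (fl j) (fun n => s (j - n))
      (fun n => s' (j - n)) (hflU j)
      (fun n => by
        rw [hs1]; congr 1; push_cast; ring) (hs3 j)
      (fun n => by
        rw [hs1']; congr 1; push_cast; ring) (hs3' j) 0
    simp only [Nat.cast_zero, sub_zero] at hu
    have h2 := hs2 j
    have h2' := hs2' j
    rw [hu, h2'] at h2
    exact h2.symm
  · -- frequencies
    intro k d h l hl w hw
    obtain ⟨s, hs1, hs2, hs3⟩ := hshadow k d h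
    have hwc : ∀ i, 0 ≤ w i ∧ w i < c := fun i => by rw [← hcabs]; exact hw i
    set w' : Fin l → Fin c := fun j => ⟨(w (Fin.rev j)).toNat, by
      have := hwc (Fin.rev j)
      omega⟩ with hw'
    have hf := freq_tendsto a₂ a₁ c hg hA hlt hdisc K (Bx b) hBK hK (fl k) (fun n => s (k - n))
      (hflU k) (fun n => by
        rw [hs1]; congr 1; push_cast; ring) (hs3 k) l (l - 1) w'
    have hiter : ∀ (m : ℤ) (j : ℕ), (pr a₂ a₁ c)^[j] (s m) = s (m + j) := by
      intro m j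
      induction j with
      | zero => simp
      | succ j ih =>
        rw [Function.iterate_succ_apply', ih, hs1]
        congr 1
        push_cast
        ring
    have hiff : ∀ t : ℕ, (digs a₂ a₁ c l (s (k - (t + (l - 1) : ℕ))) = w') ↔
        ∀ i : Fin l, d (k - t - (i : ℕ)) = w i := by
      intro t
      have hval : ∀ j : Fin l, ((digs a₂ a₁ c l (s (k - (t + (l - 1) : ℕ))) j : ℕ) : ℤ) =
          d (k - t - (Fin.rev j : ℕ)) := by
        intro j
        rw [digs_apply, hiter, dF_cast, hs2]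
        unfold ext0
        have e : k - ((t + (l - 1) : ℕ) : ℤ) + (j : ℕ) = k - t - (Fin.rev j : ℕ) := by
          rw [Fin.val_rev]
          have := j.2
          omega
        rw [e, if_pos (by have := (Fin.rev j).2; omega)]
      constructor
      · intro heq i
        have h3 := hval (Fin.rev i)
        rw [heq, Fin.rev_rev] at h3
        rw [← h3]
        simp only [hw', Fin.rev_rev]
        have := (hwc i).1
        omega
      · intro hd
        funext j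
        apply Fin.ext
        have h3 := hval j
        rw [hd] at h3
        simp only [hw']
        omega
    unfold HasFreq
    have e1 : (((|(c : ℤ)| : ℤ) : ℝ)) = (c : ℝ) := by rw [hcabs]; simp
    rw [show (|((c : ℤ) : ℝ)|) = (c : ℝ) by simp]
    refine hf.congr fun M => ?_
    congr 2
    apply Finset.card_bij (fun t _ => t)
    · intro t ht
      simp only [Finset.mem_filter] at ht ⊢
      exact ⟨ht.1, (hiff t).mp ht.2⟩
    · intro t _ t' _ h'
      exact h'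
    · intro t ht
      simp only [Finset.mem_filter] at ht
      exact ⟨t, by simp only [Finset.mem_filter]; exact ⟨ht.1, (hiff t).mpr ht.2⟩, rfl⟩

end Pool.Agent.Results.MP_cdbd41_nt.WordFrequencies
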